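import Pool.Agent.Work.MP_f5717c_gt.K.Main

/-!
No branched covering of a product of two closed hyperbolic surfaces along a surface that is etale
over both factors is atoroidal.
-/

namespace Pool.Agent.Results.MP_f5717c_gt.NotAtoroidal

open UpperHalfPlane Pool.Kod

/-- The fundamental group of `Y` divided by the normal closure of the images of the elements of
`S` under the map `f`. -/
def Quo {X Y : Type} [TopologicalSpace X] [TopologicalSpace Y] (f : C(X, Y)) (x : X)
    (S : Set (FundamentalGroup X x)) : Type :=
  FundamentalGroup Y (f x) ⧸ Subgroup.normalClosure ((FundamentalGroup.map f x) '' S)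

noncomputable instance instGroupQuo {X Y : Type} [TopologicalSpace X] [TopologicalSpace Y] (f : C(X, Y)) (x : X)
    (S : Set (FundamentalGroup X x)) : Group (Quo f x S) :=
  QuotientGroup.Quotient.group _

/-- The orbifold fundamental group of `(ℍ / L₁) × (ℍ / L₂)` with cone angle `2 π / r t` along the
component of `D` given by `t`: the fundamental group of the complement of `D` divided by the
`r t`-th powers of the loops around `D`. -/
def Orb (L₁ L₂ : Subgroup Iso) (T : Set Iso) (r : Iso → ℕ) (p : Comp T) : Type :=
  Quo (pr L₁ L₂ T) p (relators T r p)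

noncomputable instance instGroupOrb (L₁ L₂ : Subgroup Iso) (T : Set Iso) (r : Iso → ℕ) (p : Comp T) :
    Group (Orb L₁ L₂ T r p) :=
  instGroupQuo _ _ _

/-- Every subgroup of finite index contains a subgroup isomorphic to `ℤ × ℤ`. -/
def Toroidal (G : Type) [Group G] : Prop :=
  ∀ H : Subgroup G, H.index ≠ 0 → ∃ φ : Multiplicative (ℤ × ℤ) →* H, Function.Injective φ

/-- Let `ℍ / L₁` and `ℍ / L₂` be closed hyperbolic surfaces and let `T` be the set of isometries
whose graphs are the sheets of the preimage of a closed surface `D` in `(ℍ / L₁) × (ℍ / L₂)` that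
is locally the graph of an isometry. Let `r ≥ 2` be a function that is constant on the components
of `D`. Then every subgroup of finite index of the orbifold fundamental group of
`(ℍ / L₁) × (ℍ / L₂)` with cone angle `2 π / r` along `D` contains a subgroup isomorphic to
`ℤ × ℤ`. -/
theorem result {L₁ L₂ : Subgroup Iso} {T : Set Iso} (h₁ : IsSurfaceGroup L₁)
    (h₂ : IsSurfaceGroup L₂) (hT : IsEtale L₁ L₂ T) {r : Iso → ℕ} (hr : ∀ t ∈ T, 2 ≤ r t)
    (hinv : ∀ t ∈ T, ∀ g ∈ L₁, ∀ h ∈ L₂, r (h * t * g) = r t) (p : Comp T) :
    Toroidal (Orb L₁ L₂ T r p) := by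
  intro H hH
  have : H.FiniteIndex := ⟨hH⟩
  exact @main L₁ L₂ T h₁ h₂ hT r hr hinv p H this

end Pool.Agent.Results.MP_f5717c_gt.NotAtoroidal
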